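import Pool.Agent.PSD.Limit

/-!
# An explicit region of ergodicity of the Parrondo spin system
-/

namespace Pool.Agent.Results.MP_fd8f7f_pr.DualityRegion

open Pool.Agent.PSD

/-- The duality criterion in terms of the two values `-t` (at `0`) and `r` (at `1`). -/
theorem of_criterion (p : Fin 4 → ℝ) (r t : ℝ) (hr0 : 0 ≤ r) (hr1 : r ≤ 1) (ht0 : 0 ≤ t)
    (ht1 : t ≤ 1)
    (h : |r ^ 2 * p 0 - r * t * (1 - p 1 - p 2) - t ^ 2 * (1 - p 3)|
      + |r * (p 2 - p 0) + t * (p 3 - p 1)| + |r * (p 1 - p 0) + t * (p 3 - p 2)|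
      + |p 0 + p 3 - p 1 - p 2| < r + t)
    (S : ℝ → C(Config, ℝ) → C(Config, ℝ)) (hS : IsParrondoSemigroup p S) : IsErgodic S := by
  have hpos : 0 < r + t := lt_of_le_of_lt (by positivity) h
  have hne : r + t ≠ 0 := hpos.ne'
  refine ergodic_of_dual hS (a := -t) (b := r)
    (d0 := (r ^ 2 * p 0 - r * t * (1 - p 1 - p 2) - t ^ 2 * (1 - p 3)) / (r + t))
    (d1 := (r * (p 2 - p 0) + t * (p 3 - p 1)) / (r + t))
    (d2 := (r * (p 1 - p 0) + t * (p 3 - p 2)) / (r + t))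
    (d3 := (p 0 + p 3 - p 1 - p 2) / (r + t)) ?_ ?_ ?_ ?_ ?_ ?_
  · intro h1; linarith
  · rw [abs_neg, abs_of_nonneg ht0]; exact ht1
  · rw [abs_of_nonneg hr0]; exact hr1
  · have h1 : |-(-t * r)| = t * r := by
      rw [neg_mul, neg_neg]; exact abs_of_nonneg (mul_nonneg ht0 hr0)
    rw [h1]
    rcases le_total t r with h2 | h2
    · rw [abs_of_nonneg (by linarith)]; nlinarith
    · rw [abs_of_nonpos (by linarith)]; nlinarith
  · intro l r'
    cases l <;> cases r' <;> simp only [idx, uv, if_true, Bool.false_eq_true, if_false] <;>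
      field_simp <;> ring
  · simp only [abs_div, abs_of_pos hpos]
    rw [← add_div, ← add_div, ← add_div, div_lt_one hpos]
    exact h

/-- In the sign-coherent case the sum of the absolute values is below `2`. -/
theorem coherent_lt {a b c d : ℝ} (ha : 0 < a ∧ a < 1) (hb : 0 < b ∧ b < 1) (hc : 0 < c ∧ c < 1)
    (hd : 0 < d ∧ d < 1)
    (h : 0 ≤ (a + b + c + d - 2) * (a + b - c - d) * (a - b + c - d) * (a - b - c + d)) :
    |a + b + c + d - 2| + |a + b - c - d| + |a - b + c - d| + |a - b - c + d| < 2 := by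
  obtain ⟨ha0, ha1⟩ := ha
  obtain ⟨hb0, hb1⟩ := hb
  obtain ⟨hc0, hc1⟩ := hc
  obtain ⟨hd0, hd1⟩ := hd
  set A := a + b + c + d - 2 with hA
  set B := a + b - c - d with hB
  set C := a - b + c - d with hC
  set D := a - b - c + d with hD
  have e1 : A + B + C + D = 4 * a - 2 := by rw [hA, hB, hC, hD]; ring
  have e2 : A + B - C - D = 4 * b - 2 := by rw [hA, hB, hC, hD]; ring
  have e3 : A - B + C - D = 4 * c - 2 := by rw [hA, hB, hC, hD]; ring
  have e4 : A - B - C + D = 4 * d - 2 := by rw [hA, hB, hC, hD]; ring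
  have hz : A * B * C * D ≤ 0 → A = 0 ∨ B = 0 ∨ C = 0 ∨ D = 0 := by
    intro h1
    have h2 : A * B * C * D = 0 := le_antisymm h1 h
    rcases mul_eq_zero.1 h2 with h3 | h3
    · rcases mul_eq_zero.1 h3 with h4 | h4
      · rcases mul_eq_zero.1 h4 with h5 | h5
        · exact Or.inl h5
        · exact Or.inr (Or.inl h5)
      · exact Or.inr (Or.inr (Or.inl h4))
    · exact Or.inr (Or.inr (Or.inr h3))
  clear_value A B C D
  rcases le_total 0 A with sA | sA <;> rcases le_total 0 B with sB | sB <;>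
    rcases le_total 0 C with sC | sC <;> rcases le_total 0 D with sD | sD <;>
    simp only [abs_of_nonneg, abs_of_nonpos, sA, sB, sC, sD]
  all_goals first
    | linarith
    | (have h1 : A * B * C * D ≤ 0 := by
        first
          | exact mul_nonpos_of_nonneg_of_nonpos (mul_nonneg (mul_nonneg sA sB) sC) sD
          | exact mul_nonpos_of_nonpos_of_nonneg
              (mul_nonpos_of_nonneg_of_nonpos (mul_nonneg sA sB) sC) sD
          | exact mul_nonpos_of_nonpos_of_nonneg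
              (mul_nonpos_of_nonpos_of_nonneg (mul_nonpos_of_nonneg_of_nonpos sA sB) sC) sD
          | exact mul_nonpos_of_nonpos_of_nonneg
              (mul_nonpos_of_nonpos_of_nonneg (mul_nonpos_of_nonpos_of_nonneg sA sB) sC) sD
          | exact mul_nonpos_of_nonneg_of_nonpos
              (mul_nonneg_of_nonpos_of_nonpos (mul_nonpos_of_nonneg_of_nonpos sA sB) sC) sD
          | exact mul_nonpos_of_nonneg_of_nonpos
              (mul_nonneg_of_nonpos_of_nonpos (mul_nonpos_of_nonpos_of_nonneg sA sB) sC) sD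
          | exact mul_nonpos_of_nonneg_of_nonpos
              (mul_nonneg (mul_nonneg_of_nonpos_of_nonpos sA sB) sC) sD
          | exact mul_nonpos_of_nonpos_of_nonneg
              (mul_nonpos_of_nonneg_of_nonpos (mul_nonneg_of_nonpos_of_nonpos sA sB) sC) sD
       rcases hz h1 with h2 | h2 | h2 | h2 <;> linarith)

/-- **An explicit region of ergodicity.**  Let `p ∈ (0,1)^4`.  Suppose that either there are
`r, t ∈ [0,1]` with
`|r² p_0 - r t (1 - p_1 - p_2) - t² (1 - p_3)| + |r (p_2 - p_0) + t (p_3 - p_1)|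
  + |r (p_1 - p_0) + t (p_3 - p_2)| + |p_0 + p_3 - p_1 - p_2| < r + t`,
or
`(p_0 + p_1 + p_2 + p_3 - 2)(p_0 + p_1 - p_2 - p_3)(p_0 - p_1 + p_2 - p_3)(p_0 - p_1 - p_2 + p_3) ≥ 0`.
Then the Parrondo spin system on `ℤ` with parameters `p` is ergodic. -/
theorem result (p : Fin 4 → ℝ) (hp : ∀ m, 0 < p m ∧ p m < 1)
    (h : (∃ r t : ℝ, 0 ≤ r ∧ r ≤ 1 ∧ 0 ≤ t ∧ t ≤ 1 ∧
        |r ^ 2 * p 0 - r * t * (1 - p 1 - p 2) - t ^ 2 * (1 - p 3)|
          + |r * (p 2 - p 0) + t * (p 3 - p 1)| + |r * (p 1 - p 0) + t * (p 3 - p 2)|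
          + |p 0 + p 3 - p 1 - p 2| < r + t) ∨
      0 ≤ (p 0 + p 1 + p 2 + p 3 - 2) * (p 0 + p 1 - p 2 - p 3) * (p 0 - p 1 + p 2 - p 3)
        * (p 0 - p 1 - p 2 + p 3))
    (S : ℝ → C(Config, ℝ) → C(Config, ℝ)) (hS : IsParrondoSemigroup p S) : IsErgodic S := by
  rcases h with ⟨r, t, hr0, hr1, ht0, ht1, h⟩ | h
  · exact of_criterion p r t hr0 hr1 ht0 ht1 h S hS
  · refine of_criterion p 1 1 zero_le_one le_rfl zero_le_one le_rfl ?_ S hS
    have h1 := coherent_lt (hp 0) (hp 1) (hp 2) (hp 3) h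
    have e1 : (1 : ℝ) ^ 2 * p 0 - 1 * 1 * (1 - p 1 - p 2) - 1 ^ 2 * (1 - p 3)
        = p 0 + p 1 + p 2 + p 3 - 2 := by ring
    have e2 : (1 : ℝ) * (p 2 - p 0) + 1 * (p 3 - p 1) = -(p 0 + p 1 - p 2 - p 3) := by ring
    have e3 : (1 : ℝ) * (p 1 - p 0) + 1 * (p 3 - p 2) = -(p 0 - p 1 + p 2 - p 3) := by ring
    have e4 : p 0 + p 3 - p 1 - p 2 = p 0 - p 1 - p 2 + p 3 := by ring
    rw [e1, e2, e3, e4, abs_neg, abs_neg]
    linarith

end Pool.Agent.Results.MP_fd8f7f_pr.DualityRegion
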